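import Pool.Agent.helper48.PR.SpecH

/-! # Project pr (MP_a2a22c_al), module HE -/

set_option autoImplicit false

namespace Pool.Agent.PR

open Matrix

/-- the form as a bilinear map -/
def HE_B (F : Type) [Field F] (m : ℕ) :
    ((Fin m → F) × (Fin m → F)) →ₗ[F] Module.Dual F ((Fin m → F) × (Fin m → F)) :=
  LinearMap.mk₂ F (fun e e' => om e e')
    (fun a b c => by
      simp only [om, Prod.fst_add, Prod.snd_add, Pi.add_apply, ← Finset.sum_add_distrib]
      exact Finset.sum_congr rfl (fun i _ => by ring))
    (fun a b c => by
      simp only [om, Prod.smul_fst, Prod.smul_snd, Pi.smul_apply, smul_eq_mul, Finset.mul_sum]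
      exact Finset.sum_congr rfl (fun i _ => by ring))
    (fun a b c => by
      simp only [om, Prod.fst_add, Prod.snd_add, Pi.add_apply, ← Finset.sum_add_distrib]
      exact Finset.sum_congr rfl (fun i _ => by ring))
    (fun a b c => by
      simp only [om, Prod.smul_fst, Prod.smul_snd, Pi.smul_apply, smul_eq_mul, Finset.mul_sum]
      exact Finset.sum_congr rfl (fun i _ => by ring))

theorem HE_B_apply (F : Type) [Field F] (m : ℕ) (e e' : (Fin m → F) × (Fin m → F)) :
    HE_B F m e e' = om e e' := rfl

theorem HE_nondeg (F : Type) [Field F] (m : ℕ) (e : (Fin m → F) × (Fin m → F))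
    (h : ∀ e', om e e' = 0) : e = 0 := by
  have h1 : e.1 = 0 := by
    funext i
    have := h (0, Pi.single i 1)
    simp only [om, Pi.zero_apply, mul_zero, sub_zero] at this
    rw [Finset.sum_eq_single i] at this
    · simpa using this
    · intro b _ hb
      simp [Pi.single_eq_of_ne hb]
    · intro hi
      exact absurd (Finset.mem_univ i) hi
  have h2 : e.2 = 0 := by
    funext i
    have := h (Pi.single i 1, 0)
    simp only [om, Pi.zero_apply, mul_zero, zero_sub] at this
    rw [Finset.sum_eq_single i] at this
    · simpa using this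
    · intro b _ hb
      simp [Pi.single_eq_of_ne hb]
    · intro hi
      exact absurd (Finset.mem_univ i) hi
  exact Prod.ext h1 h2

theorem HE_inj (F : Type) [Field F] (m : ℕ) : Function.Injective (HE_B F m) := by
  rw [← LinearMap.ker_eq_bot, LinearMap.ker_eq_bot']
  intro e he
  apply HE_nondeg F m e
  intro e'
  rw [← HE_B_apply, he]
  rfl

theorem HE_dim (F : Type) [Field F] (m : ℕ) :
    Module.finrank F ((Fin m → F) × (Fin m → F)) = m + m := by
  rw [Module.finrank_prod, Module.finrank_fin_fun]

theorem HE : HE_stmt := by
  intro F _ m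
  refine ⟨?_, HE_nondeg F m, ?_⟩
  · intro K hK
    have h1 : K.map (HE_B F m) ≤ K.dualAnnihilator := by
      rintro _ ⟨e, he, rfl⟩
      rw [Submodule.mem_dualAnnihilator]
      intro w hw
      exact hK e he w hw
    have h2 : Module.finrank F K = Module.finrank F (K.map (HE_B F m)) :=
      LinearEquiv.finrank_eq (Submodule.equivMapOfInjective (HE_B F m) (HE_inj F m) K)
    have h3 : Module.finrank F (K.map (HE_B F m)) ≤ Module.finrank F K.dualAnnihilator :=
      Submodule.finrank_mono h1
    have h4 := Subspace.finrank_add_finrank_dualAnnihilator_eq K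
    rw [HE_dim] at h4
    omega
  · intro l
    have hs : Function.Surjective (HE_B F m) := by
      rw [← LinearMap.injective_iff_surjective_of_finrank_eq_finrank]
      · exact HE_inj F m
      · exact (Subspace.dual_finrank_eq).symm
    obtain ⟨f, hf⟩ := hs l
    refine ⟨f, fun e => ?_⟩
    rw [← HE_B_apply, hf]

end Pool.Agent.PR
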