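import Pool.Agent.helper5.PR.SpecS

/-! # Project pr (MP_a2a22c_al), module S-BAD -/

set_option autoImplicit false

namespace Pool.Agent.PR

open Matrix

theorem S_BAD_den (hZI : S_ZI_stmt) (D : ℕ) (hD : 1 ≤ D) (x : ℚ) (h : x.den ∣ D) : x ∈ ZI D :=
  (hZI D hD x).2 ⟨1, by rwa [pow_one]⟩

theorem S_BAD_mul {n D : ℕ} (A B : Matrix (Fin n) (Fin n) ℚ) (hA : ∀ i j, A i j ∈ ZI D)
    (hB : ∀ i j, B i j ∈ ZI D) : ∀ i j, (A * B) i j ∈ ZI D := by
  intro i j
  rw [Matrix.mul_apply]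
  exact Subalgebra.sum_mem _ (fun k _ => Subalgebra.mul_mem _ (hA i k) (hB k j))

theorem S_BAD_one (n D : ℕ) : ∀ i j, (1 : Matrix (Fin n) (Fin n) ℚ) i j ∈ ZI D := by
  intro i j
  rw [Matrix.one_apply]
  split_ifs
  · exact Subalgebra.one_mem _
  · exact Subalgebra.zero_mem _

theorem S_BAD_entries (hZI : S_ZI_stmt) (n : ℕ) (Λ : Type) [Group Λ] (hfg : Group.FG Λ)
    (r : Λ →* Matrix (Fin n) (Fin n) ℚ) :
    ∃ D : ℕ, 1 ≤ D ∧ ∀ l i j, r l i j ∈ ZI D := by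
  classical
  obtain ⟨S, hS⟩ := hfg.out
  let D : ℕ := ∏ s ∈ S, ∏ i : Fin n, ∏ j : Fin n, ((r s i j).den * (r s⁻¹ i j).den)
  have hD : 1 ≤ D := by
    apply Nat.one_le_iff_ne_zero.2
    simp only [D, Finset.prod_ne_zero_iff]
    intro s _ i _ j _
    exact Nat.mul_ne_zero (r s i j).den_ne_zero (r s⁻¹ i j).den_ne_zero
  have hdvd : ∀ s ∈ S, ∀ i j, (r s i j).den * (r s⁻¹ i j).den ∣ D := by
    intro s hs i j
    have h1 : (r s i j).den * (r s⁻¹ i j).den ∣ ∏ j : Fin n, ((r s i j).den * (r s⁻¹ i j).den) :=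
      Finset.dvd_prod_of_mem (fun j : Fin n => (r s i j).den * (r s⁻¹ i j).den) (Finset.mem_univ j)
    have h2 : (∏ j : Fin n, ((r s i j).den * (r s⁻¹ i j).den)) ∣
        ∏ i : Fin n, ∏ j : Fin n, ((r s i j).den * (r s⁻¹ i j).den) :=
      Finset.dvd_prod_of_mem (fun i : Fin n => ∏ j : Fin n, ((r s i j).den * (r s⁻¹ i j).den))
        (Finset.mem_univ i)
    have h3 : (∏ i : Fin n, ∏ j : Fin n, ((r s i j).den * (r s⁻¹ i j).den)) ∣ D :=
      Finset.dvd_prod_of_mem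
        (fun s => ∏ i : Fin n, ∏ j : Fin n, ((r s i j).den * (r s⁻¹ i j).den)) hs
    exact h1.trans (h2.trans h3)
  refine ⟨D, hD, ?_⟩
  have key : ∀ l : Λ, (∀ i j, r l i j ∈ ZI D) ∧ (∀ i j, r l⁻¹ i j ∈ ZI D) := by
    intro l
    have hl : l ∈ Subgroup.closure (S : Set Λ) := by rw [hS]; exact Subgroup.mem_top l
    refine Subgroup.closure_induction
      (p := fun l _ => (∀ i j, r l i j ∈ ZI D) ∧ (∀ i j, r l⁻¹ i j ∈ ZI D)) ?_ ?_ ?_ ?_ hl
    · intro s hs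
      refine ⟨fun i j => ?_, fun i j => ?_⟩
      · exact S_BAD_den hZI D hD _ ((Dvd.intro _ rfl).trans (hdvd s hs i j))
      · exact S_BAD_den hZI D hD _ ((Dvd.intro_left _ rfl).trans (hdvd s hs i j))
    · rw [inv_one, map_one]
      exact ⟨S_BAD_one n D, S_BAD_one n D⟩
    · intro x y _ _ hx hy
      rw [_root_.mul_inv_rev, map_mul, map_mul]
      exact ⟨S_BAD_mul _ _ hx.1 hy.1, S_BAD_mul _ _ hy.2 hx.2⟩
    · intro x _ hx
      rw [inv_inv]
      exact ⟨hx.2, hx.1⟩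
  intro l
  exact (key l).1

theorem S_BAD_pow (a m : ℕ) (ha : a ≠ 0) (hm : m ≠ 0)
    (h : ∀ q : ℕ, q.Prime → q ∣ a → q ∣ m) : a ∣ m ^ a := by
  rw [← Nat.factorization_prime_le_iff_dvd ha (pow_ne_zero _ hm)]
  intro q hq
  rw [Nat.factorization_pow]
  by_cases hqa : q ∣ a
  · have h1 : 1 ≤ m.factorization q := by
      have := h q hq hqa
      exact (hq.dvd_iff_one_le_factorization hm).1 this
    have h2 : a.factorization q < a := Nat.factorization_lt q ha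
    have h3 : (a • m.factorization) q = a * m.factorization q := rfl
    rw [h3]
    nlinarith
  · rw [Nat.factorization_eq_zero_of_not_dvd hqa]
    exact Nat.zero_le _

theorem S_BAD (hZI : S_ZI_stmt) : S_BAD_stmt := by
  classical
  intro n Λ _ hfg r
  obtain ⟨D, hD, hent⟩ := S_BAD_entries hZI n Λ hfg r
  have htr : ∀ l, (r l).trace ∈ ZI D := by
    intro l
    rw [Matrix.trace]
    exact Subalgebra.sum_mem _ (fun i _ => hent l i i)
  let B : Finset ℕ := D.primeFactors.filter (fun q => ∃ l, q ∣ (r l).trace.den)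
  have hB : ∀ q ∈ B, q.Prime := fun q hq => Nat.prime_of_mem_primeFactors (Finset.mem_filter.1 hq).1
  let m : ℕ := ∏ q ∈ B, q
  have hm : m ≠ 0 := by
    simp only [m, Finset.prod_ne_zero_iff]
    intro q hq
    exact (hB q hq).ne_zero
  refine ⟨m, Nat.one_le_iff_ne_zero.2 hm, ?_, ?_⟩
  · intro l
    rw [hZI m (Nat.one_le_iff_ne_zero.2 hm)]
    refine ⟨(r l).trace.den, S_BAD_pow _ _ (r l).trace.den_ne_zero hm ?_⟩
    intro q hq hqd
    obtain ⟨k, hk⟩ := (hZI D hD _).1 (htr l)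
    have hqD : q ∣ D := hq.dvd_of_dvd_pow (hqd.trans hk)
    have : q ∈ B := by
      refine Finset.mem_filter.2 ⟨Nat.mem_primeFactors.2 ⟨hq, hqD, by omega⟩, l, hqd⟩
    exact Finset.dvd_prod_of_mem (fun q => q) this
  · intro q hq hqm
    obtain ⟨p, hp, hqp⟩ := (hq.prime.dvd_finsetProd_iff (fun q => q)).1 hqm
    have : q = p := (Nat.prime_dvd_prime_iff_eq hq (hB p hp)).1 hqp
    subst this
    exact (Finset.mem_filter.1 hp).2

end Pool.Agent.PR
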